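import Pool.Agent.Q169.AA.Loc

/-!
# MP_6c077c_gt, Q1: 3-spheres in `S⁴` related by asymptotically affine homeomorphisms

Q1 asks whether every smoothly embedded 3-sphere `M ⊂ S⁴` is smoothly unknotted, that is, carried
onto the equator by a diffeomorphism of `S⁴`.  By Brown's theorem there is always a homeomorphism of
`S⁴` which does this and is a diffeomorphism near `M`; the question is whether it can be made smooth
off `M`.  The theorem does this for homeomorphisms which are *asymptotically affine* at the points
off `M`: in smooth coordinates there is `c > 0` such that for every `ε > 0`, on all sufficiently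
small balls (radius `s`, centers near the point), the map differs by at most `ε m s` from an affine
map whose linear part `L` satisfies `c m |v| ≤ |L v| ≤ m |v|`; the scale `m > 0` and `L` depend on
the ball in an arbitrary way.  So the map may be nowhere differentiable off `M`, it need not be
Lipschitz (the scales may tend to zero or infinity at every point off `M`), and the linear parts may
rotate forever (spirals).  Asymptotically conformal homeomorphisms are examples.

Let `M ⊂ S⁴` be any closed subset and `F` a homeomorphism of `S⁴` which is a local diffeomorphism at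
the points of `M` and, at every other point, a local diffeomorphism or asymptotically affine.  Then
every neighbourhood of the graph of `F` contains the graph of a diffeomorphism of `S⁴` which agrees
with `F` in a neighbourhood of `M`.  So `M` and `F(M)` are smoothly equivalent; in particular, if
`F(M)` is the equator then `M` is smoothly unknotted, and both complementary pieces are
diffeomorphic to hemispheres.
-/

set_option autoImplicit false

open Set Filter Topology Metric Function
open scoped Manifold ContDiff

noncomputable section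

namespace Pool.Agent.Results.MP_6c077c_gt.AsymptoticallyAffineEquivalence

/-- `ℝ^n` -/
abbrev R (n : ℕ) : Type := EuclideanSpace ℝ (Fin n)

/-- on the ball of radius `s` around `p` the map `G` differs by at most `ε m s` from an affine map
with linear part `L`, where `c m ‖v‖ ≤ ‖L v‖ ≤ m ‖v‖` -/
def NearlyAffine (n : ℕ) (G : R n → R n) (c ε : ℝ) (p : R n) (s : ℝ) : Prop :=
  ∃ (m : ℝ) (L : R n →L[ℝ] R n), 0 < m ∧ (∀ v, c * m * ‖v‖ ≤ ‖L v‖ ∧ ‖L v‖ ≤ m * ‖v‖) ∧
    ∀ q, ‖q - p‖ ≤ s → ‖G q - G p - L (q - p)‖ ≤ ε * m * s

/-- `G` is asymptotically affine at `0` -/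
def AsympAffine (n : ℕ) (G : R n → R n) : Prop :=
  ∃ c : ℝ, 0 < c ∧ ∀ ε : ℝ, 0 < ε → ∃ r : ℝ, 0 < r ∧ ∀ p : R n, ‖p‖ ≤ r →
    ∀ s : ℝ, 0 < s → s ≤ r → NearlyAffine n G c ε p s

section defs

variable (n : ℕ) {X Y : Type} [TopologicalSpace X] [ChartedSpace (R n) X] [TopologicalSpace Y]
  [ChartedSpace (R n) Y]

/-- `F` is a smooth local diffeomorphism at `x` -/
def LocDiff (F : X → Y) (x : X) : Prop := IsLocalDiffeomorphAt (𝓡 n) (𝓡 n) ∞ F x

/-- `F` is asymptotically affine at `x`, in some smooth coordinates around `x` (the parametrization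
`A`) and around `F x` (the chart `B`) -/
def AsymptoticallyAffine (F : X → Y) (x : X) : Prop :=
  ∃ (A : R n → X) (B : Y → R n), A 0 = x ∧ LocDiff n A 0 ∧ LocDiff n B (F x) ∧
    AsympAffine n fun p => B (F (A p))

/-- `F` is a local diffeomorphism at the points of `M` and, at every other point, a local
diffeomorphism or asymptotically affine -/
def Adm (M : Set X) (F : X → Y) : Prop :=
  ∀ x, LocDiff n F x ∨ (x ∉ M ∧ AsymptoticallyAffine n F x)

/-- every neighbourhood of the graph of `F` contains the graph of a diffeomorphism which agrees with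
`F` near `M` -/
def DiffeosNear (M : Set X) (F : X → Y) : Prop :=
  ∀ O : Set (X × Y), IsOpen O → (∀ x, (x, F x) ∈ O) →
    ∃ D : Diffeomorph (𝓡 n) (𝓡 n) X Y ∞, (∀ x, (x, D x) ∈ O) ∧ ∀ x ∈ M, D =ᶠ[𝓝 x] F

end defs

/-- the standard smooth 4-sphere -/
abbrev S4 : Type := sphere (0 : EuclideanSpace ℝ (Fin (4 + 1))) 1

/-- for maps of the 4-sphere: a local diffeomorphism at the points of `M` and, at every other point,
a local diffeomorphism or asymptotically affine -/
def Adm4 (M : Set S4) (F : S4 → S4) : Prop := Adm 4 M F

/-- for maps of the 4-sphere: near the graph there are diffeomorphisms which agree with `F` near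
`M` -/
def DiffeosNear4 (M : Set S4) (F : S4 → S4) : Prop := DiffeosNear 4 M F

/-- A homeomorphism of the 4-sphere which is a local diffeomorphism at the points of a closed set
`M` (for instance a smooth 3-sphere) and, elsewhere, a local diffeomorphism or asymptotically affine
is a limit of diffeomorphisms of the 4-sphere which agree with it near `M`. -/
theorem result (M : Set S4) (hM : IsClosed M) (F : S4 ≃ₜ S4) (h : Adm4 M F) :
    DiffeosNear4 M F := by
  intro O hO hFO
  have hbc : IsClosed {x | ¬ LocDiff 4 F x} := by
    rw [← isOpen_compl_iff, isOpen_iff_mem_nhds]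
    intro x hx
    have hx' : Pool.Agent.Y522.LD 4 F x := by
      by_contra h
      exact hx h
    filter_upwards [hx'.eventually] with y hy h using h hy
  obtain ⟨U, U', hU, hU', hMU, hBU, hUU⟩ := normal_separation hM hbc (by
    rw [Set.disjoint_left]
    intro x hx hx'
    rcases h x with h1 | h1
    · exact hx' h1
    · exact h1.1 hx)
  obtain ⟨f', h1, h2, h3, h4⟩ := Pool.Agent.Q169.AA.aaInf 4 S4 S4 F U' hU'
    (fun x hx => ⟨hBU hx, by
      rcases h x with h | ⟨-, A, B, hA0, hA, hB, c, hc, h⟩
      · exact absurd h hx
      · refine Pool.Agent.Q169.AA.AAM.of F.continuous.continuousAt hB ?_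
        have h2 : Pool.Agent.Q169.AA.AAn 4 (fun p => B (F (A p))) 0 := by
          refine ⟨c, hc, fun ε hε => ?_⟩
          obtain ⟨r, hr, h3⟩ := h ε hε
          refine ⟨r, hr, fun p hp s hs hsr => h3 p ?_ s hs hsr⟩
          rwa [sub_zero] at hp
        have h3 := Pool.Agent.Q169.AA.AAE.of (n := 4) (F := fun w => B (F w)) hA h2
        rwa [hA0] at h3⟩) O hO hFO
  have hl : IsLocalDiffeomorph (𝓡 4) (𝓡 4) ∞ f' := h3
  refine ⟨hl.diffeomorphOfBijective h2, h1, ?_⟩
  intro x hx
  filter_upwards [hU.mem_nhds (hMU hx)] with y hy
  exact h4 y fun hy' => Set.disjoint_left.1 hUU hy hy'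

end Pool.Agent.Results.MP_6c077c_gt.AsymptoticallyAffineEquivalence
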