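import Pool.Agent.Q130.CM.Lim

/-!
# MP_6c077c_gt, Q1: 3-spheres in `S⁴` related by cone monotone homeomorphisms

Q1 asks whether every smoothly embedded 3-sphere `M ⊂ S⁴` is smoothly unknotted, that is, carried
onto the equator by a diffeomorphism of `S⁴`.  By Brown's theorem there is always a homeomorphism of
`S⁴` which does this and is a diffeomorphism near `M`; the question is whether it can be made smooth
off `M`.  The theorem does this for homeomorphisms which are, at every
point off `M`, local diffeomorphisms or cone monotone: in smooth coordinates, for every direction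
`v` the increments of the map in the directions near `v` lie in a proper convex cone (the map need not
be smooth off `M`; locally `δ`-monotone and nearly affine maps have this property).

More generally: let `M ⊂ S⁴` be any closed subset and `F` a homeomorphism of `S⁴` which is a local
diffeomorphism at the points of `M` and, at every other point, a local diffeomorphism or cone
monotone.  Then some diffeomorphism of `S⁴` agrees with `F` in a neighbourhood of `M`.  So `M` and
`F(M)` are smoothly equivalent; in particular, if `F(M)` is the equator then `M` is smoothly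
unknotted, and both complementary pieces are diffeomorphic to hemispheres.
-/

set_option autoImplicit false

open Set Filter Topology Metric Function
open scoped Manifold ContDiff

noncomputable section

namespace Pool.Agent.Results.MP_6c077c_gt.ConeMonotoneEquivalence

/-- `ℝ^n` -/
abbrev R (n : ℕ) : Type := EuclideanSpace ℝ (Fin n)

/-- the map `G` of Euclidean spaces is cone monotone at `0`: for every direction `v` there are
`r > 0` and a linear functional `ℓ` such that the increments of `G` between points of norm at most
`r`, in the directions near `v`, lie in the cone `r ‖w‖ < ℓ w` -/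
def ConeMon (n : ℕ) (G : R n → R n) : Prop :=
  ∀ v : R n, v ≠ 0 → ∃ (r : ℝ) (ℓ : R n →L[ℝ] ℝ), 0 < r ∧
    ∀ p q : R n, ‖p‖ ≤ r → ‖q‖ ≤ r → ∀ t : ℝ, 0 < t → ‖q - p - t • v‖ ≤ r * t →
      r * ‖G q - G p‖ < ℓ (G q - G p)

section defs

variable (n : ℕ) {X Y : Type} [TopologicalSpace X] [ChartedSpace (R n) X] [TopologicalSpace Y]
  [ChartedSpace (R n) Y]

/-- `F` is a smooth local diffeomorphism at `x` -/
def LocDiff (F : X → Y) (x : X) : Prop := IsLocalDiffeomorphAt (𝓡 n) (𝓡 n) ∞ F x

/-- `F` is cone monotone at `x`, in some smooth coordinates around `x` (the parametrization `A`) and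
around `F x` (the chart `B`) -/
def ConeMonotone (F : X → Y) (x : X) : Prop :=
  ∃ (A : R n → X) (B : Y → R n), A 0 = x ∧ LocDiff n A 0 ∧ LocDiff n B (F x) ∧
    ConeMon n fun p => B (F (A p))

/-- `F` is a local diffeomorphism at the points of `M` and, at every other point, a local
diffeomorphism or cone monotone -/
def Adm (M : Set X) (F : X → Y) : Prop :=
  ∀ x, LocDiff n F x ∨ (x ∉ M ∧ ConeMonotone n F x)

/-- some diffeomorphism agrees with `F` near `M` -/
def DiffeoNear (M : Set X) (F : X → Y) : Prop :=
  ∃ D : Diffeomorph (𝓡 n) (𝓡 n) X Y ∞, ∀ x ∈ M, D =ᶠ[𝓝 x] F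

end defs

/-- the standard smooth 4-sphere -/
abbrev S4 : Type := sphere (0 : EuclideanSpace ℝ (Fin (4 + 1))) 1

/-- for maps of the 4-sphere: a local diffeomorphism at the points of `M` and, at every other point,
a local diffeomorphism or cone monotone -/
def Adm4 (M : Set S4) (F : S4 → S4) : Prop := Adm 4 M F

/-- for maps of the 4-sphere: some diffeomorphism agrees with `F` near `M` -/
def DiffeoNear4 (M : Set S4) (F : S4 → S4) : Prop := DiffeoNear 4 M F

/-- A homeomorphism of the 4-sphere which is a local diffeomorphism at the points of a closed set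
`M` (for instance a smooth 3-sphere) and, elsewhere, a local diffeomorphism or cone monotone, agrees
near `M` with a diffeomorphism of the 4-sphere. -/
theorem result (M : Set S4) (hM : IsClosed M) (F : S4 ≃ₜ S4) (h : Adm4 M F) :
    DiffeoNear4 M F := by
  have hbc : IsClosed {x | ¬ LocDiff 4 F x} := by
    rw [← isOpen_compl_iff, isOpen_iff_mem_nhds]
    intro x hx
    have hx' : Pool.Agent.Y522.LD 4 F x := by
      by_contra h
      exact hx h
    filter_upwards [hx'.eventually] with y hy h using h hy
  obtain ⟨U, U', hU, hU', hMU, hBU, hUU⟩ := normal_separation hM hbc (by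
    rw [Set.disjoint_left]
    intro x hx hx'
    rcases h x with h1 | h1
    · exact hx' h1
    · exact h1.1 hx)
  obtain ⟨f', h1, h2, h3, h4⟩ := Pool.Agent.Q130.CM.cmInf 4 S4 S4 F U' hU'
    (fun x hx => ⟨hBU hx, by
      rcases h x with h | ⟨-, A, B, hA0, hA, hB, hc⟩
      · exact absurd h hx
      · exact ⟨B, hB, A, hA0, hA, hc⟩⟩) univ isOpen_univ (fun x => mem_univ _)
  have hl : IsLocalDiffeomorph (𝓡 4) (𝓡 4) ∞ f' := h3
  refine ⟨hl.diffeomorphOfBijective h2, ?_⟩
  intro x hx
  filter_upwards [hU.mem_nhds (hMU hx)] with y hy
  exact h4 y fun hy' => Set.disjoint_left.1 hUU hy hy'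

end Pool.Agent.Results.MP_6c077c_gt.ConeMonotoneEquivalence
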