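import Pool.Agent.Q130.CX.Lim

/-!
# MP_6c077c_gt, Q1: 3-spheres in `S⁴` related by smooth homeomorphisms of corank at most one

Q1 asks whether every smoothly embedded 3-sphere `M ⊂ S⁴` is smoothly unknotted, that is, carried
onto the equator by a diffeomorphism of `S⁴`.  By Brown's theorem there is always a homeomorphism of
`S⁴` which does this and is a diffeomorphism near `M`; the question is whether it can be made a
diffeomorphism off `M`.  The theorem does this for homeomorphisms `F` which are smooth maps with a
differential of rank at least three off `M` (the inverse need not be differentiable and nothing is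
assumed about the set of critical points).

More generally: let `M ⊂ S⁴` be any closed subset and `F` a homeomorphism of `S⁴` which is a local
diffeomorphism at the points of `M` and smooth with a differential of rank at least three at every
other point.  Then some diffeomorphism of `S⁴` agrees with `F` in a neighbourhood of `M`.  So `M`
and `F(M)` are smoothly equivalent; in particular, if `F(M)` is the equator then `M` is smoothly
unknotted, and both complementary pieces are diffeomorphic to hemispheres.
-/

set_option autoImplicit false

open Set Filter Topology Metric Function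
open scoped Manifold ContDiff

noncomputable section

namespace Pool.Agent.Results.MP_6c077c_gt.CorankOneEquivalence

/-- `ℝ^n` -/
abbrev R (n : ℕ) : Type := EuclideanSpace ℝ (Fin n)

/-- the linear map `L` has rank at least `r`: composed with some linear map it is onto `ℝ^r` -/
def RankAtLeast (r : ℕ) {n : ℕ} (L : R n →L[ℝ] R n) : Prop :=
  ∃ P : R n →L[ℝ] R r, Surjective (fun v => P (L v))

theorem RankAtLeast.le {m n : ℕ} {L : R n →L[ℝ] R n} (h : RankAtLeast m L) :
    m ≤ Module.finrank ℝ (LinearMap.range L.toLinearMap) := by
  obtain ⟨P, hP⟩ := h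
  have h4 : Surjective (P.toLinearMap ∘ₗ (LinearMap.range L.toLinearMap).subtype) := by
    intro w
    obtain ⟨v, hv⟩ := hP w
    exact ⟨⟨_, LinearMap.mem_range_self _ v⟩, hv⟩
  have h5 := LinearMap.finrank_le_finrank_of_surjective h4
  rwa [finrank_euclideanSpace, Fintype.card_fin] at h5

section defs

variable (n : ℕ) {X Y : Type} [TopologicalSpace X] [ChartedSpace (R n) X] [TopologicalSpace Y]
  [ChartedSpace (R n) Y]

/-- `F` is a smooth local diffeomorphism at `x` -/
def LocDiff (F : X → Y) (x : X) : Prop := IsLocalDiffeomorphAt (𝓡 n) (𝓡 n) ∞ F x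

/-- `F` is smooth at `x` and the rank of its differential at `x` is at least `r` -/
def SmoothOfRank (r : ℕ) (F : X → Y) (x : X) : Prop :=
  ContMDiffAt (𝓡 n) (𝓡 n) ∞ F x ∧ RankAtLeast r (mfderiv (𝓡 n) (𝓡 n) F x)

/-- `F` is a local diffeomorphism at the points of `M` and smooth with a differential of rank at
least `r` at every other point -/
def Adm (r : ℕ) (M : Set X) (F : X → Y) : Prop :=
  ∀ x, LocDiff n F x ∨ (x ∉ M ∧ SmoothOfRank n r F x)

/-- some diffeomorphism agrees with `F` near `M` -/
def DiffeoNear (M : Set X) (F : X → Y) : Prop :=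
  ∃ D : Diffeomorph (𝓡 n) (𝓡 n) X Y ∞, ∀ x ∈ M, D =ᶠ[𝓝 x] F

end defs

/-- the standard smooth 4-sphere -/
abbrev S4 : Type := sphere (0 : EuclideanSpace ℝ (Fin (4 + 1))) 1

/-- for maps of the 4-sphere: a local diffeomorphism at the points of `M` and smooth of rank at
least three at every other point -/
def Adm4 (M : Set S4) (F : S4 → S4) : Prop := Adm 4 3 M F

/-- for maps of the 4-sphere: some diffeomorphism agrees with `F` near `M` -/
def DiffeoNear4 (M : Set S4) (F : S4 → S4) : Prop := DiffeoNear 4 M F

/-- A homeomorphism of the 4-sphere which is a local diffeomorphism at the points of a closed set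
`M` (for instance a smooth 3-sphere) and smooth of rank at least three elsewhere agrees near `M`
with a diffeomorphism of the 4-sphere. -/
theorem result (M : Set S4) (hM : IsClosed M) (F : S4 ≃ₜ S4) (h : Adm4 M F) :
    DiffeoNear4 M F := by
  have hbc : IsClosed {x | ¬ LocDiff 4 F x} := by
    rw [← isOpen_compl_iff, isOpen_iff_mem_nhds]
    intro x hx
    have hx' : Pool.Agent.Y522.LD 4 F x := by
      by_contra h
      exact hx h
    filter_upwards [hx'.eventually] with y hy h using h hy
  obtain ⟨U, U', hU, hU', hMU, hBU, hUU⟩ := normal_separation hM hbc (by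
    rw [Set.disjoint_left]
    intro x hx hx'
    rcases h x with h1 | h1
    · exact hx' h1
    · exact h1.1 hx)
  have hs : ContMDiff (𝓡 (3 + 1)) (𝓡 (3 + 1)) ∞ F := by
    intro x
    rcases h x with h1 | h1
    · exact Pool.Agent.Y522.LD.contMDiffAt (n := 4) h1
    · exact h1.2.1
  obtain ⟨f', h1, h2, h3, h4⟩ := Pool.Agent.Q130.CX.coInf (m := 3) F hs U' hU'
    (fun x hx => ⟨hBU hx, by
      rcases h x with h | ⟨-, -, h⟩
      · exact absurd h hx
      · exact h.le⟩) univ isOpen_univ (fun x => mem_univ _)
  have hl : IsLocalDiffeomorph (𝓡 4) (𝓡 4) ∞ f' := h3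
  refine ⟨hl.diffeomorphOfBijective h2, ?_⟩
  intro x hx
  filter_upwards [hU.mem_nhds (hMU hx)] with y hy
  exact h4 y fun hy' => Set.disjoint_left.1 hUU hy hy'

end Pool.Agent.Results.MP_6c077c_gt.CorankOneEquivalence
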