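import Pool.Agent.Q131.FT.Ball
import Pool.Agent.Q130.CM.Lim

/-!
# MP_6c077c_gt, Q1: maps of the round 4-ball onto one side of a 3-sphere in `S⁴`

Q1 asks whether every smoothly embedded 3-sphere `M ⊂ S⁴` bounds smooth 4-balls.  By Brown's theorem
each side is the image of the round closed ball `D⁴` under a homeomorphism which is a diffeomorphism
near the boundary.  The theorem says that a side `W` of `M` is a smooth ball as soon as it is the
image of `D⁴` under a continuous map `f` of the following kind, which is not assumed to be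
injective or surjective inside:

* `f` is a local diffeomorphism at the points of the unit sphere, injective on the unit sphere, and
  no interior point is mapped to `M = f(S³)`;
* at every interior point `f` is a local diffeomorphism, or cone monotone in some smooth coordinates
  (it may be nowhere differentiable there), or smooth of rank at least `3`, with countable fibres and
  without sign change of the Jacobian determinant near the point (no folds).

Then `f` is injective on `D⁴`, the image of the open ball is a component of `S⁴ \ M`, and near the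
graph of `f` there is a smooth embedding of `D⁴` with the same image, equal to `f` near the boundary.
(By the disc theorem of Palais and Cerf, `M` is then smoothly unknotted.)

Injectivity: the pairs of different points of `D⁴` with the same image form a compact set; their
images form a closed and open subset of `S⁴` which does not meet `M`, so there are none.
-/

set_option autoImplicit false

open Set Filter Topology Metric Function
open scoped Manifold ContDiff

noncomputable section

namespace Pool.Agent.Results.MP_6c077c_gt.MapsOfTheBall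

/-- `ℝ^n` -/
abbrev R (n : ℕ) : Type := EuclideanSpace ℝ (Fin n)

/-- the map `G` of Euclidean spaces is cone monotone at `0`: for every direction `v` there are
`r > 0` and a linear functional `ℓ` such that the increments of `G` between points of norm at most
`r`, in the directions near `v`, lie in the cone `r ‖w‖ < ℓ w` -/
def ConeMon (n : ℕ) (G : R n → R n) : Prop :=
  ∀ v : R n, v ≠ 0 → ∃ (r : ℝ) (ℓ : R n →L[ℝ] ℝ), 0 < r ∧
    ∀ p q : R n, ‖p‖ ≤ r → ‖q‖ ≤ r → ∀ t : ℝ, 0 < t → ‖q - p - t • v‖ ≤ r * t →
      r * ‖G q - G p‖ < ℓ (G q - G p)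

/-- the linear map `L` of `ℝ^n` has rank at least `r`: composed with some linear map it is onto
`ℝ^r` -/
def RankAtLeast (r : ℕ) {n : ℕ} (L : R n →L[ℝ] R n) : Prop :=
  ∃ P : R n →L[ℝ] R r, Surjective (fun v => P (L v))

theorem RankAtLeast.le {r n : ℕ} {L : R n →L[ℝ] R n} (h : RankAtLeast r L) :
    r ≤ Module.finrank ℝ (LinearMap.range L.toLinearMap) := by
  obtain ⟨P, hP⟩ := h
  have h4 : Surjective (P.toLinearMap ∘ₗ (LinearMap.range L.toLinearMap).subtype) := by
    intro w
    obtain ⟨v, hv⟩ := hP w
    exact ⟨⟨_, LinearMap.mem_range_self _ v⟩, hv⟩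
  have h5 := LinearMap.finrank_le_finrank_of_surjective h4
  rwa [finrank_euclideanSpace, Fintype.card_fin] at h5

section defs

variable (n : ℕ) {X Y : Type} [TopologicalSpace X] [ChartedSpace (R n) X]
  [TopologicalSpace Y] [ChartedSpace (R n) Y]

/-- `f` is a smooth local diffeomorphism at `x` -/
def LocDiff (f : X → Y) (x : X) : Prop := IsLocalDiffeomorphAt (𝓡 n) (𝓡 n) ∞ f x

/-- `f` is cone monotone at `x`, in some smooth coordinates around `x` (the parametrization `A`) and
around `f x` (the chart `B`) -/
def ConeMonotone (f : X → Y) (x : X) : Prop :=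
  ∃ (A : R n → X) (B : Y → R n), A 0 = x ∧ LocDiff n A 0 ∧ LocDiff n B (f x) ∧
    ConeMon n fun p => B (f (A p))

/-- `f` is smooth near `x` and its differential has rank at least `r` at the points near `x` -/
def SmoothOfRank (r : ℕ) (f : X → Y) (x : X) : Prop :=
  ∀ᶠ y in 𝓝 x, ContMDiffAt (𝓡 n) (𝓡 n) ∞ f y ∧ RankAtLeast r (mfderiv (𝓡 n) (𝓡 n) f y)

/-- near `x` the fibres of `f` are countable -/
def CountableToOneNear (f : X → Y) (x : X) : Prop :=
  ∃ U ∈ 𝓝 x, ∀ y, (U ∩ f ⁻¹' {y}).Countable

/-- the Jacobian determinant of `f` does not change sign near `x`: it is nonnegative near `x` in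
some smooth coordinates around `x` (the parametrization `A`) and around `f x` (the chart `B`) -/
def JacobianNonneg (f : X → Y) (x : X) : Prop :=
  ∃ (A : R n → X) (B : Y → R n), A 0 = x ∧ LocDiff n A 0 ∧ LocDiff n B (f x) ∧
    ∀ᶠ z in 𝓝 (0 : R n), 0 ≤ (fderiv ℝ (fun p => B (f (A p))) z).det

/-- near `x` the map is smooth of rank at least `n - 1`, countable-to-one, and its Jacobian does not
change sign -/
def NoFold (f : X → Y) (x : X) : Prop :=
  SmoothOfRank n (n - 1) f x ∧ CountableToOneNear f x ∧ JacobianNonneg n f x

end defs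

/-- the standard smooth 4-sphere -/
abbrev S4 : Type := sphere (0 : EuclideanSpace ℝ (Fin (4 + 1))) 1

/-- the closed unit ball of `ℝ⁴` -/
def D4 : Set (R 4) := closedBall 0 1

/-- the open unit ball of `ℝ⁴` -/
def B4 : Set (R 4) := ball 0 1

/-- the unit sphere of `ℝ⁴` -/
def S3 : Set (R 4) := sphere 0 1

/-- `f` is continuous on the closed ball, a local diffeomorphism at the points of the unit sphere,
injective on the unit sphere, and maps no point of the open ball to a point of the image of the unit
sphere -/
structure BoundaryGood (f : R 4 → S4) : Prop where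
  cont : ContinuousOn f D4
  loc : ∀ x ∈ S3, LocDiff 4 f x
  inj : InjOn f S3
  sep : ∀ x ∈ B4, f x ∉ f '' S3

/-- `Φ` is a smooth embedding of the closed ball with the same image as `f`, which is equal to `f`
near the unit sphere and off the open ball -/
structure IsEmbeddingLike (f Φ : R 4 → S4) : Prop where
  loc : ∀ x ∈ D4, LocDiff 4 Φ x
  inj : InjOn Φ D4
  img : Φ '' D4 = f '' D4
  off : ∀ x, x ∉ B4 → Φ x = f x
  near : ∀ x ∈ S3, Φ =ᶠ[𝓝 x] f

/-- If `M = f(S³)` for a continuous map `f` of the closed ball to the 4-sphere which is a local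
diffeomorphism along the boundary, injective there, and inside has at every point one of the three
properties, then `f` is injective, its image is the closure of one side of `M`, and this side is a
smooth ball. -/
theorem result (f : R 4 → S4) (hb : BoundaryGood f)
    (hf : ∀ x ∈ B4, LocDiff 4 f x ∨ NoFold 4 f x ∨ ConeMonotone 4 f x) :
    InjOn f D4 ∧ f '' B4 = connectedComponentIn (f '' S3)ᶜ (f 0) ∧
      ∀ O : Set (R 4 × S4), IsOpen O → (∀ x ∈ D4, (x, f x) ∈ O) →
        ∃ Φ : R 4 → S4, IsEmbeddingLike f Φ ∧ ∀ x ∈ D4, (x, Φ x) ∈ O := by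
  obtain ⟨hc, hb1, hb2, hb3⟩ := hb
  have e1 : interior (closedBall (0 : R 4) 1) = ball 0 1 := interior_closedBall _ one_ne_zero
  have e2 : closedBall (0 : R 4) 1 \ interior (closedBall (0 : R 4) 1) = sphere 0 1 := by
    rw [e1]
    exact closedBall_diff_ball
  have hne : (sphere (0 : R 4) 1).Nonempty := NormedSpace.sphere_nonempty.2 zero_le_one
  have hconn : IsConnected (sphere (0 : EuclideanSpace ℝ (Fin (4 + 1))) 1) := by
    refine isConnected_sphere ?_ 0 zero_le_one
    rw [← Module.finrank_eq_rank, finrank_euclideanSpace, Fintype.card_fin]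
    norm_num
  have : ConnectedSpace S4 := isConnected_iff_connectedSpace.1 hconn
  have hf' : ∀ x ∈ interior (closedBall (0 : R 4) 1), Pool.Agent.Y522.LD (3 + 1) f x ∨
      Pool.Agent.Y66.CM.CMon (3 + 1) f x ∨ Pool.Agent.Q131.FT.NF 3 f x := by
    intro x hx
    rw [e1] at hx
    rcases hf x hx with h | ⟨h1, h2, h3⟩ | ⟨A, B, hA0, hA, hB, hc⟩
    · exact Or.inl h
    · exact Or.inr (Or.inr ⟨h1.mono fun y hy => ⟨hy.1, hy.2.le⟩, h2, h3⟩)
    · exact Or.inr (Or.inl ⟨B, hB, A, hA0, hA, hc⟩)
  have key := fun (O : Set (R 4 × S4)) (hO : IsOpen O) (hfO : ∀ x ∈ D4, (x, f x) ∈ O) =>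
    Pool.Agent.Q131.FT.ball (m := 3) (by norm_num) f (closedBall (0 : R 4) 1)
      (isCompact_closedBall 0 1) hc (by rw [e2]; exact hb1) (by rw [e2]; exact hb2)
      (by rw [e2]; exact hne) (by
        rw [e1, show closedBall (0 : R 4) 1 \ ball 0 1 = sphere 0 1 from closedBall_diff_ball]
        intro x hx y hy hxy
        exact hb3 x hx ⟨y, hy, hxy.symm⟩) hf' O hO hfO
  obtain ⟨k1, k2, -⟩ := key univ isOpen_univ fun x _ => mem_univ _
  refine ⟨k1, ?_, fun O hO hfO => ?_⟩
  · rw [e1] at k2
    have h0 : (0 : R 4) ∈ ball (0 : R 4) 1 := mem_ball_self one_pos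
    have hDB : closedBall (0 : R 4) 1 = ball 0 1 ∪ sphere 0 1 := ball_union_sphere.symm
    apply Subset.antisymm
    · refine IsPreconnected.subset_connectedComponentIn ?_ (mem_image_of_mem f h0) ?_
      · exact (convex_ball (0 : R 4) 1).isPreconnected.image f (hc.mono ball_subset_closedBall)
      · rintro _ ⟨x, hx, rfl⟩
        exact hb3 x hx
    · refine isPreconnected_connectedComponentIn.subset_of_closure_inter_subset k2 ?_ ?_
      · refine ⟨f 0, mem_connectedComponentIn ?_, mem_image_of_mem f h0⟩
        exact hb3 0 h0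
      · rintro y ⟨hy1, hy2⟩
        have hcl : closure (f '' ball (0 : R 4) 1) ⊆ f '' closedBall (0 : R 4) 1 :=
          closure_minimal (image_mono ball_subset_closedBall)
            ((isCompact_closedBall (0 : R 4) 1).image_of_continuousOn hc).isClosed
        obtain ⟨x, hx, rfl⟩ := hcl hy1
        rw [hDB] at hx
        rcases hx with hx | hx
        · exact ⟨x, hx, rfl⟩
        · exfalso
          exact connectedComponentIn_subset _ _ hy2 ⟨x, hx, rfl⟩
  · obtain ⟨-, -, Φ, p1, p2, p3, p4, p5, p6⟩ := key O hO hfO
    refine ⟨Φ, ⟨p1, p2, p3, ?_, ?_⟩, p6⟩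
    · rw [e1] at p4
      exact p4
    · rw [e2] at p5
      exact p5

end Pool.Agent.Results.MP_6c077c_gt.MapsOfTheBall
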